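import Mathlib
import Pool.Agent.H.MP_f7c330_an.C

set_option autoImplicit false

open Filter Topology

namespace Pool.Agent.Results.MP_f7c330_an.No

theorem result :
    ¬ (∀ (X : Type) [AddCommGroup X] [Module ℂ X] [UniformSpace X] [IsUniformAddGroup X]
      [ContinuousSMul ℂ X] [LocallyConvexSpace ℝ X] [CompleteSpace X]
      [TopologicalSpace.MetrizableSpace X] (T : ℂ → (X →L[ℂ] X)),
      T 0 = ContinuousLinearMap.id ℂ X →
      (∀ z w : ℂ, T (z + w) = (T z).comp (T w)) →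
      (∀ x : X, Continuous (fun z : ℂ => T z x)) →
      (∀ (x : X) (z : ℂ), ∃ v : X,
        Tendsto (fun h : ℂ => h⁻¹ • (T (z + h) x - T z x)) (𝓝[≠] (0 : ℂ)) (𝓝 v)) →
      (∀ a z : ℂ, a ≠ 0 → z ≠ 0 → ∃ y : X, Dense (Set.range (fun n : ℕ => (⇑(a • T z))^[n] y))) →
      ∃ y : X, ∀ a z : ℂ, a ≠ 0 → z ≠ 0 → Dense (Set.range (fun n : ℕ => (⇑(a • T z))^[n] y))) := by
  intro h
  obtain ⟨y, b⟩ := h H.MP_f7c330_an.X H.MP_f7c330_an.T H.MP_f7c330_an.T0 H.MP_f7c330_an.Ta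
    H.MP_f7c330_an.Tc H.MP_f7c330_an.Th fun _ _ => H.MP_f7c330_an.hyp
  obtain ⟨a, p, z, q, c⟩ := H.MP_f7c330_an.nc y
  exact c (b a z p q)

end Pool.Agent.Results.MP_f7c330_an.No
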